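import Pool.Agent.W322.HB.Stmts2

set_option autoImplicit false

namespace Pool.Agent.W924.HB

open Finset Pool.Agent.H115R3.DT Pool.Agent.W322.HB

theorem aux (ε : ℝ) (κ C G N Kc D : ℕ) (hε : 0 < ε) (hε1 : ε ≤ 1 / 10) (hκ : 1 ≤ κ) (hC : 2 ≤ C)
    (hG : 1 ≤ G) (hKc : 1 ≤ Kc) (hD : 1 ≤ D) :
  ∃ (β : ℝ) (K : ℕ), 0 < β ∧ ∃ m₁ : ℕ, ∀ m : ℕ, m₁ ≤ m → ∃ N₀ T u k : ℕ,
    (∀ e : ℕ, (e : ℝ) ≤ (1 - ε / 8) * m → e ≤ N₀) ∧
    N₀ + D * T ≤ m ∧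
    κ * (2 * (D * T) + T + 2) ≤ m ∧
    N₀ + D * T + D * T ≤ K * T ∧
    N₀ + D * T + D * T ≤ m ∧
    G * κ * (2 * C * u + (C + 2) ^ 2) ≤ T ∧
    (∀ q : ℕ, (q : ℝ) ≤ β * m → q + 2 * C + 2 * C * k ≤ u) ∧
    (∀ h : ℕ, (h : ℝ) ≤ β * m → need C K N (h + C) ≤ k) ∧
    ((Kc * (k + 1) + 1 : ℕ) : ℝ) ≤ ε / 4 * m := by
  have rκ : (1 : ℝ) ≤ κ := by exact_mod_cast hκ
  have rC : (2 : ℝ) ≤ C := by exact_mod_cast hC
  have rG : (1 : ℝ) ≤ G := by exact_mod_cast hG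
  have rKc : (1 : ℝ) ≤ Kc := by exact_mod_cast hKc
  have rD : (1 : ℝ) ≤ D := by exact_mod_cast hD
  obtain ⟨τ, hτ⟩ : ∃ τ : ℝ, τ = ε / (64 * κ * D) := ⟨_, rfl⟩
  have hτ0 : 0 < τ := by rw [hτ]; positivity
  have hτ1 : τ * (64 * κ * D) = ε := by rw [hτ]; field_simp
  obtain ⟨K, hK⟩ : ∃ K : ℕ, K = ⌈2 / τ⌉₊ := ⟨_, rfl⟩
  have hK1 : 2 / τ ≤ K := by rw [hK]; exact Nat.le_ceil _
  obtain ⟨σ, hσ⟩ : ∃ σ : ℝ, σ = τ / (8 * G * κ * C) := ⟨_, rfl⟩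
  have hσ0 : 0 < σ := by rw [hσ]; positivity
  have hσ1 : σ * (8 * G * κ * C) = τ := by rw [hσ]; field_simp
  obtain ⟨ρ, hρ⟩ : ∃ ρ : ℝ, ρ = min (σ / (8 * C)) (ε / (16 * Kc)) := ⟨_, rfl⟩
  have hρ0 : 0 < ρ := by rw [hρ]; exact lt_min (by positivity) (by positivity)
  have hρ1 : ρ * (8 * C) ≤ σ := by
    have : ρ ≤ σ / (8 * C) := by rw [hρ]; exact min_le_left _ _
    rwa [le_div_iff₀ (by positivity)] at this
  have hρ2 : ρ * (16 * Kc) ≤ ε := by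
    have : ρ ≤ ε / (16 * Kc) := by rw [hρ]; exact min_le_right _ _
    rwa [le_div_iff₀ (by positivity)] at this
  obtain ⟨A1, hA1⟩ : ∃ A1 : ℕ, A1 = 1 + K * (C + 1) + 2 * N * (C + 1) + 2 * (C + 1) +
    4 * C * N * (C + 1) := ⟨_, rfl⟩
  obtain ⟨A2, hA2⟩ : ∃ A2 : ℕ, A2 = N + 2 * C * N := ⟨_, rfl⟩
  have hneed : ∀ h, need C K N h = A1 * h + A2 := by
    intro h
    rw [need, hA1, hA2]
    ring
  have rA1 : (0 : ℝ) ≤ A1 := Nat.cast_nonneg _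
  have rA2 : (0 : ℝ) ≤ A2 := Nat.cast_nonneg _
  obtain ⟨β, hβ⟩ : ∃ β : ℝ, β = min (ρ / (4 * (A1 + 1))) (σ / 4) := ⟨_, rfl⟩
  have hβ0 : 0 < β := by rw [hβ]; exact lt_min (by positivity) (by positivity)
  have hβ1 : β * (4 * (A1 + 1)) ≤ ρ := by
    have : β ≤ ρ / (4 * (A1 + 1)) := by rw [hβ]; exact min_le_left _ _
    rwa [le_div_iff₀ (by positivity)] at this
  have hβ2 : β ≤ σ / 4 := by rw [hβ]; exact min_le_right _ _
  refine ⟨β, K, hβ0, ⌈2 / τ + 4 * κ + 4 * (G * κ * (C + 2) ^ 2) / τ + 2 * (2 * C + 1) / σ +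
    2 * (A1 * C + A2 + 1) / ρ + 8 * (Kc + 1) / ε⌉₊, fun m hm => ?_⟩
  have hm' := (Nat.le_ceil _).trans (Nat.cast_le (α := ℝ).2 hm)
  have p1 : 0 ≤ 2 / τ := by positivity
  have p2 : 0 ≤ 4 * (κ : ℝ) := by positivity
  have p3 : 0 ≤ 4 * ((G : ℝ) * κ * (C + 2) ^ 2) / τ := by positivity
  have p4 : 0 ≤ 2 * (2 * (C : ℝ) + 1) / σ := by positivity
  have p5 : 0 ≤ 2 * ((A1 : ℝ) * C + A2 + 1) / ρ := by positivity
  have p6 : 0 ≤ 8 * ((Kc : ℝ) + 1) / ε := by positivity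
  have m1 : 2 / τ ≤ m := by linarith
  have m2 : 4 * (κ : ℝ) ≤ m := by linarith
  have m3 : 4 * ((G : ℝ) * κ * (C + 2) ^ 2) / τ ≤ m := by linarith
  have m4 : 2 * (2 * (C : ℝ) + 1) / σ ≤ m := by linarith
  have m5 : 2 * ((A1 : ℝ) * C + A2 + 1) / ρ ≤ m := by linarith
  have m6 : 8 * ((Kc : ℝ) + 1) / ε ≤ m := by linarith
  clear hm' hm
  rw [div_le_iff₀ hτ0] at m1 m3
  rw [div_le_iff₀ hσ0] at m4
  rw [div_le_iff₀ hρ0] at m5
  rw [div_le_iff₀ hε] at m6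
  have hm0 : (0 : ℝ) ≤ m := Nat.cast_nonneg _
  -- the numbers
  obtain ⟨T, hT⟩ : ∃ T : ℕ, T = ⌊τ * m⌋₊ := ⟨_, rfl⟩
  have T1 : (T : ℝ) ≤ τ * m := by rw [hT]; exact Nat.floor_le (by positivity)
  have T2 : τ * m < (T : ℝ) + 1 := by rw [hT]; exact Nat.lt_floor_add_one _
  obtain ⟨u, hu⟩ : ∃ u : ℕ, u = ⌊σ * m⌋₊ := ⟨_, rfl⟩
  have u1 : (u : ℝ) ≤ σ * m := by rw [hu]; exact Nat.floor_le (by positivity)
  have u2 : σ * m < (u : ℝ) + 1 := by rw [hu]; exact Nat.lt_floor_add_one _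
  obtain ⟨k, hk⟩ : ∃ k : ℕ, k = ⌊ρ * m⌋₊ := ⟨_, rfl⟩
  have k1 : (k : ℝ) ≤ ρ * m := by rw [hk]; exact Nat.floor_le (by positivity)
  have k2 : ρ * m < (k : ℝ) + 1 := by rw [hk]; exact Nat.lt_floor_add_one _
  have hε2 : 0 ≤ (1 - ε / 8) * m := mul_nonneg (by linarith) hm0
  obtain ⟨N₀, hN₀⟩ : ∃ N₀ : ℕ, N₀ = ⌊(1 - ε / 8) * m⌋₊ := ⟨_, rfl⟩
  have N1 : (N₀ : ℝ) ≤ (1 - ε / 8) * m := by rw [hN₀]; exact Nat.floor_le hε2
  have hT0 : (0 : ℝ) ≤ T := Nat.cast_nonneg _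
  -- D T
  have hκDT : 64 * (κ : ℝ) * (D * T) ≤ ε * m := by
    calc 64 * (κ : ℝ) * (D * T) = (64 * κ * D) * T := by ring
      _ ≤ (64 * κ * D) * (τ * m) := by gcongr
      _ = (τ * (64 * κ * D)) * m := by ring
      _ = ε * m := by rw [hτ1]
  have hDT0 : (0 : ℝ) ≤ D * T := by positivity
  have hDT : 64 * ((D : ℝ) * T) ≤ ε * m := by
    refine le_trans ?_ hκDT
    nlinarith [mul_nonneg (sub_nonneg.2 rκ) hDT0]
  have hTD : (T : ℝ) ≤ D * T := by nlinarith [mul_nonneg (sub_nonneg.2 rD) hT0]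
  have hεm : ε * m ≤ m / 10 := by nlinarith [mul_nonneg (sub_nonneg.2 hε1) hm0]
  have hεm0 : 0 ≤ ε * m := by positivity
  have e5 : (N₀ : ℝ) + D * T + D * T ≤ m := by
    have : (1 - ε / 8) * m = m - ε * m / 8 := by ring
    rw [this] at N1
    linarith
  have e5' : N₀ + D * T + D * T ≤ m := by exact_mod_cast e5
  have hTm : τ * m ≤ 2 * T := by linarith
  refine ⟨N₀, T, u, k, ?_, by omega, ?_, ?_, e5', ?_, ?_, ?_, ?_⟩
  · intro e he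
    rw [hN₀]
    exact Nat.le_floor he
  · have h1 : (κ : ℝ) * (2 * (D * T) + T + 2) ≤ m := by
      have h2 : (κ : ℝ) * (2 * (D * T) + T + 2) ≤ 3 * (κ * (D * T)) + 2 * κ := by
        have : (κ : ℝ) * T ≤ κ * (D * T) := by gcongr
        linarith
      have h3 : 64 * ((κ : ℝ) * (D * T)) ≤ ε * m := by linarith
      linarith
    exact_mod_cast h1
  · have h1 : (m : ℝ) ≤ K * T := by
      have h2 : (2 / τ) * T ≤ K * T := by gcongr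
      have h3 : (m : ℝ) ≤ (2 / τ) * T := by
        rw [div_mul_eq_mul_div, le_div_iff₀ hτ0]
        linarith
      linarith
    have h2 : m ≤ K * T := by exact_mod_cast h1
    omega
  · have h1 : (G : ℝ) * κ * (2 * C * u + (C + 2) ^ 2) ≤ T := by
      have h2 : (G : ℝ) * κ * (2 * C) * u ≤ τ * m / 4 := by
        calc (G : ℝ) * κ * (2 * C) * u ≤ (G : ℝ) * κ * (2 * C) * (σ * m) := by gcongr
          _ = (σ * (8 * G * κ * C)) * m / 4 := by ring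
          _ = τ * m / 4 := by rw [hσ1]
      have h3 : (G : ℝ) * κ * (2 * C * u + (C + 2) ^ 2) =
          (G : ℝ) * κ * (2 * C) * u + G * κ * (C + 2) ^ 2 := by ring
      rw [h3]
      linarith
    exact_mod_cast h1
  · intro q hq
    have h1 : (q : ℝ) + 2 * C + 2 * C * k ≤ u := by
      have h2 : β * m ≤ σ * m / 4 := by
        calc β * m ≤ σ / 4 * m := by gcongr
          _ = σ * m / 4 := by ring
      have h3 : 2 * (C : ℝ) * k ≤ σ * m / 4 := by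
        calc 2 * (C : ℝ) * k ≤ 2 * (C : ℝ) * (ρ * m) := by gcongr
          _ = (ρ * (8 * C)) * m / 4 := by ring
          _ ≤ σ * m / 4 := by gcongr
      linarith
    exact_mod_cast h1
  · intro h hh
    rw [hneed]
    have h1 : (A1 : ℝ) * (h + C) + A2 ≤ k := by
      have h2 : (A1 : ℝ) * h ≤ ρ * m / 4 := by
        calc (A1 : ℝ) * h ≤ (A1 + 1) * (β * m) := by gcongr; linarith
          _ = (β * (4 * (A1 + 1))) * m / 4 := by ring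
          _ ≤ ρ * m / 4 := by gcongr
      have h3 : 0 ≤ ρ * m := by positivity
      have h4 : (A1 : ℝ) * (h + C) = A1 * h + A1 * C := by ring
      rw [h4]
      linarith
    exact_mod_cast h1
  · push_cast
    have h1 : (Kc : ℝ) * k ≤ ε * m / 16 := by
      calc (Kc : ℝ) * k ≤ Kc * (ρ * m) := by gcongr
        _ = (ρ * (16 * Kc)) * m / 16 := by ring
        _ ≤ ε * m / 16 := by gcongr
    have h2 : (Kc : ℝ) * (k + 1) = Kc * k + Kc := by ring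
    rw [h2]
    linarith

theorem taskConst : TaskConst := by
  intro ε κ C G N Kc hε hε1 hκ hC hG hKc
  exact aux ε κ C G N Kc (C + 2 * κ + 2) hε hε1 hκ hC hG hKc (by omega)

end Pool.Agent.W924.HB
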